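import Mathlib
import Pool.Agent.K9h74.NE.Final

set_option autoImplicit false

/-!
# Non-evasive balls that are not locally constructible, in every dimension at least four

The definitions `IsCx`, `realization`, `IsBall`, `NonEvasive`, `IsFacet`, `SameFace` are in
`Pool.Agent.H933R3.Defs`, the definitions `TreeStage`, `GlueStage` in `Pool.Agent.Y364.E3.Tree`,
the definition `LocallyConstructible` is in `Pool.Agent.K9h74.NE.Final`.

The examples are the iterated cones over a triangulated 3-ball with 12 vertices and 36 tetrahedra
that has a knotted spanning edge.  Every cone is non-evasive; a cone over `K` is locally
constructible only if `K` is; and in a locally constructible 3-ball every 3-fold covering space of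
the complement of a spanning edge that is branched along the edge has a section near the edge that
extends, which fails for the covering space given by the 3-colourings of the trefoil knot.

(In dimension three there is no such ball: this is the result `NonEvasiveThreeBallLC`.)
-/

namespace Pool.Agent.Results.MP_9638d9_co.NonEvasiveNotLC

open Pool.Agent.H933R3 Pool.Agent.K9h74.NE

/-- For every `d ≥ 4` there is a simplicial `d`-ball (with at most `d + 9` vertices) that is non-evasive
and not locally constructible, even if the intermediate complexes of a local construction need not
be simplicial complexes. -/
theorem result : ∀ d : ℕ, 4 ≤ d → ∃ K : Finset (Finset (Fin (d + 9))),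
    IsCx K ∧ IsBall d K ∧ NonEvasive K ∧ ¬ LocallyConstructible d K :=
  main

end Pool.Agent.Results.MP_9638d9_co.NonEvasiveNotLC
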